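import Mathlib

set_option autoImplicit false

namespace Pool.Agent.Lib.helper63.Chains

open Finset

variable {V : Type*} [DecidableEq V]

/-- mod 2 simplicial chains on the vertex type `V` (augmented: the empty face is allowed). -/
abbrev Ch (V : Type*) := Finset V →₀ ZMod 2

/-- boundary map -/
noncomputable def bd : Ch V →ₗ[ZMod 2] Ch V :=
  Finsupp.linearCombination (ZMod 2) (fun s : Finset V => ∑ v ∈ s, Finsupp.single (s.erase v) (1 : ZMod 2))

/-- chains supported on faces of `K` with `k` vertices -/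
noncomputable def Cs (K : Finset V → Prop) (k : ℕ) : Submodule (ZMod 2) (Ch V) :=
  Finsupp.supported (ZMod 2) (ZMod 2) {s | K s ∧ s.card = k}

def Down (K : Finset V → Prop) : Prop := ∀ s v, K s → K (s.erase v)

def Acyc (K : Finset V → Prop) (r : ℕ) : Prop :=
  ∀ k < r, ∀ c ∈ Cs K k, bd c = 0 → ∃ b ∈ Cs K (k + 1), bd b = c

theorem bd_single (s : Finset V) :
    bd (Finsupp.single s (1 : ZMod 2)) = ∑ v ∈ s, Finsupp.single (s.erase v) (1 : ZMod 2) := by
  simp [bd]

omit [DecidableEq V] in
theorem add_self_ch (c : Ch V) : c + c = 0 := by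
  ext s
  simp [CharTwo.add_self_eq_zero]

omit [DecidableEq V] in
theorem mem_Cs {K : Finset V → Prop} {k : ℕ} {c : Ch V} :
    c ∈ Cs K k ↔ ∀ s, c s ≠ 0 → K s ∧ s.card = k := by
  unfold Cs
  rw [Finsupp.mem_supported]
  constructor
  · intro h s hs
    exact h (by simpa using hs)
  · intro h s hs
    exact h s (by simpa using hs)

omit [DecidableEq V] in
theorem single_mem_Cs {K : Finset V → Prop} {k : ℕ} {s : Finset V} (h : K s) (hk : s.card = k) :
    Finsupp.single s (1 : ZMod 2) ∈ Cs K k :=
  Finsupp.single_mem_supported _ _ ⟨h, hk⟩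

omit [DecidableEq V] in
/-- induction principle for linear maps on supported chains -/
theorem map_mem_of_single {M : Type*} [AddCommGroup M] [Module (ZMod 2) M]
    (L : Ch V →ₗ[ZMod 2] M) (N : Submodule (ZMod 2) M) {K : Finset V → Prop} {k : ℕ}
    (h : ∀ s, K s → s.card = k → L (Finsupp.single s 1) ∈ N) {c : Ch V} (hc : c ∈ Cs K k) :
    L c ∈ N := by
  unfold Cs at hc
  rw [Finsupp.supported_eq_span_single] at hc
  have : Submodule.span (ZMod 2) ((fun i => Finsupp.single i (1 : ZMod 2)) '' {s | K s ∧ s.card = k})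
      ≤ N.comap L := by
    rw [Submodule.span_le]
    rintro _ ⟨s, hs, rfl⟩
    exact h s hs.1 hs.2
  exact this hc

theorem bd_bd (c : Ch V) : bd (bd c) = 0 := by
  have key : ∀ s : Finset V, bd (bd (Finsupp.single s (1 : ZMod 2))) = 0 := by
    intro s
    rw [bd_single, map_sum]
    simp_rw [bd_single]
    rw [Finset.sum_sigma']
    refine Finset.sum_involution (fun p _ => ⟨p.2, p.1⟩) ?_ ?_ ?_ ?_
    · intro p _
      dsimp only
      rw [Finset.erase_right_comm]
      exact add_self_ch _
    · intro p hp _ h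
      simp only [Finset.mem_sigma, Finset.mem_erase] at hp
      have := congrArg Sigma.fst h
      exact hp.2.1 this
    · intro p hp
      simp only [Finset.mem_sigma, Finset.mem_erase] at hp ⊢
      exact ⟨hp.2.2, fun h => hp.2.1 h.symm, hp.1⟩
    · intro p _
      rfl
  have : (bd ∘ₗ bd : Ch V →ₗ[ZMod 2] Ch V) = 0 := by
    apply Finsupp.lhom_ext'
    intro s
    apply LinearMap.ext_ring
    simpa using key s
  exact LinearMap.congr_fun this c

theorem bd_mem {K : Finset V → Prop} (hK : Down K) {k : ℕ} {c : Ch V} (hc : c ∈ Cs K (k + 1)) :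
    bd c ∈ Cs K k := by
  refine map_mem_of_single bd _ ?_ hc
  intro s hs hk
  rw [bd_single]
  refine Submodule.sum_mem _ ?_
  intro v hv
  refine single_mem_Cs (hK s v hs) ?_
  rw [Finset.card_erase_of_mem hv, hk]
  rfl

theorem bd_zero {K : Finset V → Prop} {c : Ch V} (hc : c ∈ Cs K 0) : bd c = 0 := by
  have : bd c ∈ (⊥ : Submodule (ZMod 2) (Ch V)) := by
    refine map_mem_of_single bd _ ?_ hc
    intro s _ hk
    rw [Finset.card_eq_zero] at hk
    subst hk
    rw [bd_single]
    simp
  simpa using this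

omit [DecidableEq V] in
theorem Cs_mono {K L : Finset V → Prop} (h : ∀ s, K s → L s) {k : ℕ} {c : Ch V}
    (hc : c ∈ Cs K k) : c ∈ Cs L k := by
  rw [mem_Cs] at hc ⊢
  intro s hs
  exact ⟨h s (hc s hs).1, (hc s hs).2⟩

theorem Acyc.mono {K : Finset V → Prop} {r r' : ℕ} (h : Acyc K r) (hr : r' ≤ r) : Acyc K r' :=
  fun k hk => h k (lt_of_lt_of_le hk hr)

theorem Acyc.congr {K L : Finset V → Prop} {r : ℕ} (h : Acyc K r) (hKL : ∀ s, K s ↔ L s) :
    Acyc L r := by
  have : K = L := funext fun s => propext (hKL s)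
  rwa [← this]

/-- Mayer-Vietoris -/
theorem Acyc.union {K K1 K2 K0 : Finset V → Prop} {r : ℕ}
    (hK : ∀ s, K s ↔ K1 s ∨ K2 s) (h0 : ∀ s, K0 s ↔ K1 s ∧ K2 s)
    (d1 : Down K1) (d2 : Down K2)
    (a1 : Acyc K1 r) (a2 : Acyc K2 r) (a0 : Acyc K0 (r - 1)) : Acyc K r := by
  classical
  intro k hk c hc hbd
  set c1 : Ch V := c.filter K1 with hc1
  set c2 : Ch V := c.filter (fun s => ¬ K1 s) with hc2
  have hsum : c1 + c2 = c := Finsupp.filter_add_filter_not c K1
  have m1 : c1 ∈ Cs K1 k := by
    rw [mem_Cs] at hc ⊢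
    intro s hs
    rw [hc1, Finsupp.filter_apply] at hs
    by_cases h : K1 s
    · rw [if_pos h] at hs
      exact ⟨h, (hc s hs).2⟩
    · rw [if_neg h] at hs
      exact absurd rfl hs
  have m2 : c2 ∈ Cs K2 k := by
    rw [mem_Cs] at hc ⊢
    intro s hs
    rw [hc2, Finsupp.filter_apply] at hs
    by_cases h : K1 s
    · rw [if_neg (not_not.mpr h)] at hs
      exact absurd rfl hs
    · rw [if_pos h] at hs
      exact ⟨((hK s).1 (hc s hs).1).resolve_left h, (hc s hs).2⟩
  have hb12 : bd c1 + bd c2 = 0 := by rw [← map_add, hsum, hbd]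
  have hb21 : bd c2 = bd c1 := by
    have := add_self_ch (bd c1)
    exact add_left_cancel (hb12.trans this.symm)
  obtain ⟨e, he, hbe⟩ : ∃ e ∈ Cs K0 k, bd e = bd c1 := by
    cases k with
    | zero => exact ⟨0, Submodule.zero_mem _, by rw [map_zero, bd_zero m1]⟩
    | succ k =>
      have n1 := bd_mem d1 m1
      have n2 := bd_mem d2 m2
      rw [hb21] at n2
      have n0 : bd c1 ∈ Cs K0 k := by
        rw [mem_Cs] at n1 n2 ⊢
        intro s hs
        exact ⟨(h0 s).2 ⟨(n1 s hs).1, (n2 s hs).1⟩, (n1 s hs).2⟩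
      exact a0 k (by omega) _ n0 (bd_bd _)
  obtain ⟨b1, hb1, e1⟩ := a1 k hk (c1 + e)
    (Submodule.add_mem _ m1 (Cs_mono (fun s hs => ((h0 s).1 hs).1) he))
    (by rw [map_add, hbe, add_self_ch])
  obtain ⟨b2, hb2, e2⟩ := a2 k hk (c2 + e)
    (Submodule.add_mem _ m2 (Cs_mono (fun s hs => ((h0 s).1 hs).2) he))
    (by rw [map_add, hbe, hb21, add_self_ch])
  refine ⟨b1 + b2, Submodule.add_mem _ (Cs_mono (fun s hs => (hK s).2 (Or.inl hs)) hb1)
    (Cs_mono (fun s hs => (hK s).2 (Or.inr hs)) hb2), ?_⟩
  rw [map_add, e1, e2, ← hsum]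
  have := add_self_ch e
  calc c1 + e + (c2 + e) = c1 + c2 + (e + e) := by abel
    _ = c1 + c2 := by rw [this, add_zero]

/-- cone operator -/
noncomputable def cone (u : V) : Ch V →ₗ[ZMod 2] Ch V :=
  Finsupp.linearCombination (ZMod 2)
    (fun s : Finset V => if u ∈ s then 0 else Finsupp.single (insert u s) (1 : ZMod 2))

theorem cone_single (u : V) (s : Finset V) :
    cone u (Finsupp.single s (1 : ZMod 2)) =
      if u ∈ s then 0 else Finsupp.single (insert u s) (1 : ZMod 2) := by
  simp [cone]

theorem bd_cone (u : V) (c : Ch V) : bd (cone u c) + cone u (bd c) = c := by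
  have key : ∀ s : Finset V, bd (cone u (Finsupp.single s (1 : ZMod 2))) +
      cone u (bd (Finsupp.single s (1 : ZMod 2))) = Finsupp.single s 1 := by
    intro s
    rw [cone_single, bd_single, map_sum]
    simp_rw [cone_single]
    by_cases h : u ∈ s
    · rw [if_pos h, map_zero, zero_add, Finset.sum_eq_single u]
      · simp [Finset.insert_erase h]
      · intro v _ hv
        rw [if_pos (Finset.mem_erase.2 ⟨hv.symm, h⟩)]
      · intro h'
        exact absurd h h'
    · rw [if_neg h, bd_single, Finset.sum_insert h, Finset.erase_insert h, add_assoc,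
        ← Finset.sum_add_distrib]
      rw [Finset.sum_eq_zero, add_zero]
      intro v hv
      have hvu : v ≠ u := fun e => h (e ▸ hv)
      rw [if_neg (fun h' => h (Finset.mem_of_mem_erase h')), Finset.erase_insert_of_ne hvu.symm]
      exact add_self_ch _
  have : (bd ∘ₗ cone u + cone u ∘ₗ bd : Ch V →ₗ[ZMod 2] Ch V) = LinearMap.id := by
    apply Finsupp.lhom_ext'
    intro s
    apply LinearMap.ext_ring
    simpa using key s
  exact LinearMap.congr_fun this c

theorem Acyc.of_cone {K : Finset V → Prop} (u : V) (h : ∀ s, K s → K (insert u s)) (r : ℕ) :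
    Acyc K r := by
  intro k _ c hc hbd
  refine ⟨cone u c, ?_, ?_⟩
  · refine map_mem_of_single (cone u) _ ?_ hc
    intro s hs hk
    rw [cone_single]
    split_ifs with hu
    · exact Submodule.zero_mem _
    · exact single_mem_Cs (h s hs) (by rw [Finset.card_insert_of_notMem hu, hk])
  · have := bd_cone u c
    rwa [hbd, map_zero, add_zero] at this

/-- the join of the colour classes of `A` -/
theorem acyc_join {κ : Type*} [DecidableEq κ] (cls : V → κ) (A : Finset V) :
    Acyc (fun s => s ⊆ A ∧ Set.InjOn cls s) (A.image cls).card := by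
  induction A using Finset.strongInduction with
  | H A ih =>
    have hdown : ∀ B : Finset V, Down (fun s => s ⊆ B ∧ Set.InjOn cls s) := by
      intro B s v hs
      exact ⟨(Finset.erase_subset v s).trans hs.1,
        hs.2.mono (by intro x hx; exact Finset.mem_of_mem_erase hx)⟩
    by_cases hinj : Set.InjOn cls A
    · rcases A.eq_empty_or_nonempty with rfl | ⟨u, hu⟩
      · intro k hk
        simp at hk
      · refine Acyc.of_cone u ?_ _
        intro s hs
        have : insert u s ⊆ A := Finset.insert_subset hu hs.1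
        exact ⟨this, hinj.mono (by exact_mod_cast this)⟩
    · unfold Set.InjOn at hinj
      push Not at hinj
      obtain ⟨u, hu, w, hw, huw, hne⟩ := hinj
      have hu : u ∈ A := hu
      have hw : w ∈ A := hw
      set A1 := A.filter (fun x => cls x ≠ cls u ∨ x = u) with hA1
      set A2 := A.erase u with hA2
      set A0 := A.filter (fun x => cls x ≠ cls u) with hA0
      have s1 : A1 ⊂ A := by
        refine Finset.filter_ssubset.2 ⟨w, hw, ?_⟩
        push Not
        exact ⟨huw.symm, fun e => hne e.symm⟩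
      have s2 : A2 ⊂ A := Finset.erase_ssubset hu
      have s0 : A0 ⊂ A := Finset.filter_ssubset.2 ⟨u, hu, by simp⟩
      have i1 : A.image cls ⊆ A1.image cls := by
        intro y hy
        obtain ⟨x, hx, rfl⟩ := Finset.mem_image.1 hy
        by_cases h : cls x = cls u
        · exact Finset.mem_image.2 ⟨u, Finset.mem_filter.2 ⟨hu, Or.inr rfl⟩, h.symm⟩
        · exact Finset.mem_image.2 ⟨x, Finset.mem_filter.2 ⟨hx, Or.inl h⟩, rfl⟩
      have i2 : A.image cls ⊆ A2.image cls := by
        intro y hy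
        obtain ⟨x, hx, rfl⟩ := Finset.mem_image.1 hy
        by_cases h : x = u
        · exact Finset.mem_image.2 ⟨w, Finset.mem_erase.2 ⟨fun e => hne e.symm, hw⟩,
            by rw [h, huw]⟩
        · exact Finset.mem_image.2 ⟨x, Finset.mem_erase.2 ⟨h, hx⟩, rfl⟩
      have i0 : (A.image cls).erase (cls u) ⊆ A0.image cls := by
        intro y hy
        obtain ⟨hy1, hy2⟩ := Finset.mem_erase.1 hy
        obtain ⟨x, hx, rfl⟩ := Finset.mem_image.1 hy2
        exact Finset.mem_image.2 ⟨x, Finset.mem_filter.2 ⟨hx, hy1⟩, rfl⟩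
      refine Acyc.union (K1 := fun s => s ⊆ A1 ∧ Set.InjOn cls s)
        (K2 := fun s => s ⊆ A2 ∧ Set.InjOn cls s) (K0 := fun s => s ⊆ A0 ∧ Set.InjOn cls s)
        ?_ ?_ (hdown _) (hdown _) ((ih A1 s1).mono (Finset.card_le_card i1))
        ((ih A2 s2).mono (Finset.card_le_card i2)) ((ih A0 s0).mono ?_)
      · intro s
        constructor
        · rintro ⟨h1, h2⟩
          by_cases hus : u ∈ s
          · left
            refine ⟨fun x hx => Finset.mem_filter.2 ⟨h1 hx, ?_⟩, h2⟩
            by_cases h : cls x = cls u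
            · exact Or.inr (h2 hx hus h)
            · exact Or.inl h
          · right
            exact ⟨fun x hx => Finset.mem_erase.2 ⟨fun e => hus (e ▸ hx), h1 hx⟩, h2⟩
        · rintro (⟨h1, h2⟩ | ⟨h1, h2⟩)
          · exact ⟨h1.trans s1.subset, h2⟩
          · exact ⟨h1.trans s2.subset, h2⟩
      · intro s
        constructor
        · rintro ⟨h1, h2⟩
          refine ⟨⟨fun x hx => ?_, h2⟩, ⟨fun x hx => ?_, h2⟩⟩
          · have := Finset.mem_filter.1 (h1 hx)
            exact Finset.mem_filter.2 ⟨this.1, Or.inl this.2⟩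
          · have := Finset.mem_filter.1 (h1 hx)
            exact Finset.mem_erase.2 ⟨fun e => this.2 (by rw [e]), this.1⟩
        · rintro ⟨⟨h1, h2⟩, ⟨h3, -⟩⟩
          refine ⟨fun x hx => ?_, h2⟩
          have a := Finset.mem_filter.1 (h1 hx)
          have b := Finset.mem_erase.1 (h3 hx)
          exact Finset.mem_filter.2 ⟨a.1, a.2.resolve_right b.1⟩
      · have := Finset.card_le_card i0
        rw [Finset.card_erase_of_mem (Finset.mem_image_of_mem cls hu)] at this
        exact this

end Pool.Agent.Lib.helper63.Chains
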