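import Pool.Agent.Lib.helper63.Chains

set_option autoImplicit false

namespace Pool.Agent.Lib.helper63.Chains

open Finset

variable {V : Type*} [DecidableEq V]

/-- the signs along `s`, read in increasing colour order, alternate and start with `ε` -/
def Alt (cls : V → ℕ) (sgn : V → Bool) (ε : Bool) (s : Finset V) : Prop :=
  ∀ v ∈ s, sgn v = xor ε (decide (Odd (s.filter (fun w => cls w < cls v)).card))

theorem alt_insert (cls : V → ℕ) (sgn : V → Bool) (ε : Bool) (s : Finset V) (u : V)
    (hu : ∀ w ∈ s, cls u < cls w) :
    Alt cls sgn ε (insert u s) ↔ sgn u = ε ∧ Alt cls sgn (!ε) s := by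
  have hus : u ∉ s := fun h => lt_irrefl _ (hu u h)
  have h1 : (insert u s).filter (fun w => cls w < cls u) = ∅ := by
    rw [Finset.filter_eq_empty_iff]
    intro w hw
    rcases Finset.mem_insert.1 hw with rfl | hw
    · exact lt_irrefl _
    · exact not_lt.2 (hu w hw).le
  have h2 : ∀ v ∈ s, ((insert u s).filter (fun w => cls w < cls v)).card =
      (s.filter (fun w => cls w < cls v)).card + 1 := by
    intro v hv
    rw [Finset.filter_insert, if_pos (hu v hv), Finset.card_insert_of_notMem]
    exact fun h => hus (Finset.mem_filter.1 h).1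
  have h3 : ∀ (a : Bool) (k : ℕ), xor a (decide (Odd (k + 1))) = xor (!a) (decide (Odd k)) := by
    intro a k
    rcases Nat.even_or_odd k with h | h
    · have h' : ¬ Odd k := Nat.not_odd_iff_even.2 h
      have h'' : Odd (k + 1) := h.add_one
      simp [h', h'']
    · have h' : ¬ Odd (k + 1) := Nat.not_odd_iff_even.2 h.add_one
      simp [h', h]
  unfold Alt
  rw [Finset.forall_mem_insert, h1]
  refine and_congr (by simp) (forall₂_congr ?_)
  intro v hv
  rw [h2 v hv, h3]

open Classical in
/-- indicator of alternation, mod 2 -/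
noncomputable def ind (cls : V → ℕ) (sgn : V → Bool) (ε : Bool) (s : Finset V) : ZMod 2 :=
  if Alt cls sgn ε s then 1 else 0

omit [DecidableEq V] in
theorem ind_empty (cls : V → ℕ) (sgn : V → Bool) (ε : Bool) : ind cls sgn ε ∅ = 1 := by
  unfold ind
  rw [if_pos]
  intro v hv
  simp at hv

theorem ind_insert (cls : V → ℕ) (sgn : V → Bool) (ε : Bool) (s : Finset V) (u : V)
    (hu : ∀ w ∈ s, cls u < cls w) :
    ind cls sgn ε (insert u s) = if sgn u = ε then ind cls sgn (!ε) s else 0 := by
  unfold ind
  by_cases h : sgn u = ε
  · rw [if_pos h]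
    by_cases h' : Alt cls sgn (!ε) s
    · rw [if_pos h', if_pos ((alt_insert cls sgn ε s u hu).2 ⟨h, h'⟩)]
    · rw [if_neg h', if_neg (fun e => h' ((alt_insert cls sgn ε s u hu).1 e).2)]
  · rw [if_neg h, if_neg (fun e => h ((alt_insert cls sgn ε s u hu).1 e).1)]

theorem sum_ind (cls : V → ℕ) (sgn : V → Bool) (s : Finset V) :
    Set.InjOn cls s → s.Nonempty → ∀ ε : Bool,
      ∑ v ∈ s, ind cls sgn ε (s.erase v) = ind cls sgn true s + ind cls sgn false s := by
  induction s using Finset.induction_on_min_value cls with
  | empty => intro _ h; simp at h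
  | insert u s hus hmin ih =>
    intro hinj _ ε
    have hu : ∀ w ∈ s, cls u < cls w := by
      intro w hw
      refine lt_of_le_of_ne (hmin w hw) ?_
      intro e
      have := hinj (Finset.mem_coe.2 (Finset.mem_insert_self u s))
        (Finset.mem_coe.2 (Finset.mem_insert_of_mem hw)) e
      exact hus (this ▸ hw)
    rw [Finset.sum_insert hus, Finset.erase_insert hus, ind_insert _ _ _ _ _ hu,
      ind_insert _ _ _ _ _ hu]
    have h1 : ∑ v ∈ s, ind cls sgn ε ((insert u s).erase v) =
        if sgn u = ε then ∑ v ∈ s, ind cls sgn (!ε) (s.erase v) else 0 := by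
      have : ∀ v ∈ s, ind cls sgn ε ((insert u s).erase v) =
          if sgn u = ε then ind cls sgn (!ε) (s.erase v) else 0 := by
        intro v hv
        have hvu : u ≠ v := fun e => hus (e ▸ hv)
        rw [Finset.erase_insert_of_ne hvu, ind_insert]
        intro w hw
        exact hu w (Finset.mem_of_mem_erase hw)
      rw [Finset.sum_congr rfl this]
      split_ifs <;> simp
    rw [h1]
    rcases s.eq_empty_or_nonempty with rfl | hne
    · simp only [ind_empty, Finset.sum_empty]
      cases sgn u <;> cases ε <;> simp
    · have hinj' : Set.InjOn cls s :=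
        hinj.mono (by intro x hx; exact Finset.mem_coe.2 (Finset.mem_insert_of_mem hx))
      rw [ih hinj' hne]
      have e1 := CharTwo.add_self_eq_zero (ind cls sgn true s)
      have e2 := CharTwo.add_self_eq_zero (ind cls sgn false s)
      cases sgn u <;> cases ε <;> simp
      · linear_combination e2
      · linear_combination e1

/-- chain-level Borsuk-Ulam / Ky Fan theorem -/
theorem exists_alt (K : Finset V → Prop) (r : ℕ) (cls : V → ℕ) (sgn : V → Bool) (a : V → V)
    (ha : ∀ v, a (a v) = v) (hcls : ∀ v, cls (a v) = cls v) (hsgn : ∀ v, sgn (a v) = !sgn v)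
    (hK : ∀ s, K s → K (s.image a)) (h0 : K ∅) (hinj : ∀ s, K s → Set.InjOn cls s)
    (hac : Acyc K r) : ∃ s, K s ∧ s.card = r ∧ Alt cls sgn true s := by
  classical
  have ainj : Function.Injective a := Function.LeftInverse.injective ha
  let A : Ch V →ₗ[ZMod 2] Ch V := Finsupp.lmapDomain (ZMod 2) (ZMod 2) (fun s => s.image a)
  have A_single : ∀ s : Finset V, A (Finsupp.single s 1) = Finsupp.single (s.image a) 1 := by
    intro s
    simp [A, Finsupp.mapDomain_single]
  have img_img : ∀ s : Finset V, (s.image a).image a = s := by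
    intro s
    rw [Finset.image_image]
    have : a ∘ a = id := funext ha
    rw [this, Finset.image_id]
  have AA : ∀ c, A (A c) = c := by
    intro c
    have : A ∘ₗ A = LinearMap.id := by
      apply Finsupp.lhom_ext'
      intro s
      apply LinearMap.ext_ring
      simp only [LinearMap.comp_apply, Finsupp.lsingle_apply, LinearMap.id_apply]
      rw [A_single, A_single, img_img]
    exact LinearMap.congr_fun this c
  have bdA : ∀ c, bd (A c) = A (bd c) := by
    intro c
    have : bd ∘ₗ A = A ∘ₗ bd := by
      apply Finsupp.lhom_ext'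
      intro s
      apply LinearMap.ext_ring
      simp only [LinearMap.comp_apply, Finsupp.lsingle_apply]
      rw [A_single, bd_single, bd_single, map_sum, Finset.sum_image (fun x _ y _ h => ainj h)]
      refine Finset.sum_congr rfl ?_
      intro v _
      rw [A_single, Finset.image_erase ainj]
    exact LinearMap.congr_fun this c
  have A_mem : ∀ k c, c ∈ Cs K k → A c ∈ Cs K k := by
    intro k c hc
    refine map_mem_of_single A _ ?_ hc
    intro s hs hk
    rw [A_single]
    exact single_mem_Cs (hK s hs) (by rw [Finset.card_image_of_injective _ ainj, hk])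
  let φ : Bool → (Ch V →ₗ[ZMod 2] ZMod 2) := fun ε =>
    Finsupp.linearCombination (ZMod 2) (ind cls sgn ε)
  have φ_single : ∀ ε s, φ ε (Finsupp.single s 1) = ind cls sgn ε s := by
    intro ε s
    simp [φ]
  have alt_img : ∀ s : Finset V, Alt cls sgn true (s.image a) ↔ Alt cls sgn false s := by
    intro s
    unfold Alt
    rw [Finset.forall_mem_image]
    refine forall₂_congr ?_
    intro v _
    have : ((s.image a).filter (fun w => cls w < cls (a v))).card =
        (s.filter (fun w => cls w < cls v)).card := by
      rw [Finset.filter_image, Finset.card_image_of_injective _ ainj]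
      simp only [hcls]
    rw [this, hsgn]
    cases sgn v <;> simp
  have φA : ∀ c, φ true (A c) = φ false c := by
    intro c
    have : φ true ∘ₗ A = φ false := by
      apply Finsupp.lhom_ext'
      intro s
      apply LinearMap.ext_ring
      simp only [LinearMap.comp_apply, Finsupp.lsingle_apply]
      rw [A_single, φ_single, φ_single]
      unfold ind
      rw [alt_img]
    exact LinearMap.congr_fun this c
  have φbd : ∀ k c, c ∈ Cs K (k + 1) → φ true (bd c) = φ true c + φ false c := by
    intro k c hc
    have : (φ true ∘ₗ bd - (φ true + φ false)) c ∈ (⊥ : Submodule (ZMod 2) (ZMod 2)) := by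
      refine map_mem_of_single _ _ ?_ hc
      intro s hs hk
      simp only [LinearMap.sub_apply, LinearMap.comp_apply, LinearMap.add_apply,
        Submodule.mem_bot]
      rw [bd_single, map_sum]
      simp_rw [φ_single]
      rw [sum_ind cls sgn s (hinj s hs) (Finset.card_pos.1 (by omega)), sub_self]
    simp only [LinearMap.sub_apply, LinearMap.comp_apply, LinearMap.add_apply,
      Submodule.mem_bot] at this
    exact sub_eq_zero.1 this
  have main : ∀ k ≤ r, ∃ z ∈ Cs K k, bd z = 0 ∧ A z = z ∧ φ true z = 1 := by
    intro k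
    induction k with
    | zero =>
      intro _
      refine ⟨Finsupp.single ∅ 1, single_mem_Cs h0 rfl, ?_, ?_, ?_⟩
      · rw [bd_single]; simp
      · rw [A_single]; simp
      · rw [φ_single, ind_empty]
    | succ k ih =>
      intro hk
      obtain ⟨z, hz, hz1, hz2, hz3⟩ := ih (by omega)
      obtain ⟨c, hc, hcz⟩ := hac k (by omega) z hz hz1
      refine ⟨c + A c, Submodule.add_mem _ hc (A_mem _ _ hc), ?_, ?_, ?_⟩
      · rw [map_add, bdA, hcz, hz2, add_self_ch]
      · rw [map_add, AA, add_comm]
      · rw [map_add, φA, ← φbd k c hc, hcz, hz3]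
  obtain ⟨z, hz, -, -, hz3⟩ := main r le_rfl
  by_contra hcon
  push Not at hcon
  have : φ true z ∈ (⊥ : Submodule (ZMod 2) (ZMod 2)) := by
    refine map_mem_of_single _ _ ?_ hz
    intro s hs hk
    rw [φ_single, Submodule.mem_bot]
    unfold ind
    rw [if_neg (hcon s hs hk)]
  rw [Submodule.mem_bot, hz3] at this
  exact one_ne_zero this

end Pool.Agent.Lib.helper63.Chains
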